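import Pool.Agent.W2helper74.LC.Main

/-!
# Joint block complexity of inequivalent numbers: counting
-/

set_option autoImplicit false

namespace Pool.Agent.W2helper74.LC

open Finset Filter Pool.Agent.W472.AC

lemma words_finite {r : ℕ} (b : ℕ) (hb : 1 ≤ b) (y : Fin r → ℝ) (N n : ℕ) :
    (words b y N n).Finite := by
  refine (Set.Finite.pi' (fun _ : Fin n => Set.finite_Icc (0 : ℤ) b)).subset ?_
  rintro w ⟨i, t, -, rfl⟩ j
  have hbZ : (0 : ℤ) < b := by exact_mod_cast hb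
  exact ⟨Int.emod_nonneg _ hbZ.ne', (Int.emod_lt_of_pos _ hbZ).le⟩

theorem count {d r : ℕ} (b : ℕ) (hb : 2 ≤ b) (x : Fin d → ℝ) (w c : ℝ) (hw : 0 < w)
    (hc : 0 < c) (hx : MeasL x w c) (y : Fin r → ℝ) (hy : Inequivalent b x y) (N : ℕ) :
    ∃ C : ℝ, ∀ n : ℕ, r / w * n - C ≤ ((words b y N n).ncard : ℝ) := by
  classical
  obtain ⟨c', hc', hsep⟩ := separated b hb x w c hw.le hc hx y hy
  have hbR : (1 : ℝ) < b := by exact_mod_cast (by omega : 1 < b)
  have hb0 : (0 : ℝ) < b := by linarith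
  obtain ⟨E, hE⟩ : ∃ E : ℕ, ((b : ℝ) ^ E)⁻¹ ≤ c' := by
    obtain ⟨E, hE⟩ := pow_unbounded_of_one_lt (1 / c') hbR
    refine ⟨E, ?_⟩
    rw [inv_le_comm₀ (by positivity) hc', ← one_div]
    exact hE.le
  have key : ∀ n K : ℕ, ((N + K : ℕ) : ℝ) * w + E ≤ n → r * K ≤ (words b y N n).ncard := by
    intro n K hK
    have hinj : Function.Injective
        (fun p : Fin r × Fin K => block b (y p.1) (N + (p.2 : ℕ)) n) := by
      rintro ⟨i, t⟩ ⟨j, s⟩ h
      by_contra hne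
      obtain ⟨k, hk⟩ := close b (by omega) (y i) (y j) (N + t) (N + s) n h
      have h1 := hsep i j (N + t) (N + s) (N + K) (by omega) (by omega) (fun h2 => hne (by
        rw [Prod.mk.injEq] at h2
        rw [Prod.mk.injEq]
        exact ⟨h2.1, Fin.ext (by omega)⟩)) k
      have h2 : ((b : ℝ) ^ (N + K)) ^ w ≤ (b : ℝ) ^ n / (b : ℝ) ^ E := by
        rw [← Real.rpow_natCast (b : ℝ) (N + K), ← Real.rpow_mul hb0.le, le_div_iff₀ (by positivity),
          ← Real.rpow_natCast (b : ℝ) E, ← Real.rpow_add hb0, ← Real.rpow_natCast (b : ℝ) n]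
        exact Real.rpow_le_rpow_of_exponent_le hbR.le hK
      have h3 : c' < c' := by
        calc c' ≤ ((b : ℝ) ^ (N + K)) ^ w *
              |y i * (b : ℝ) ^ (N + (t : ℕ)) - y j * (b : ℝ) ^ (N + (s : ℕ)) - k| := h1
          _ ≤ (b : ℝ) ^ n / (b : ℝ) ^ E *
              |y i * (b : ℝ) ^ (N + (t : ℕ)) - y j * (b : ℝ) ^ (N + (s : ℕ)) - k| :=
            mul_le_mul_of_nonneg_right h2 (abs_nonneg _)
          _ = ((b : ℝ) ^ E)⁻¹ *
              (|y i * (b : ℝ) ^ (N + (t : ℕ)) - y j * (b : ℝ) ^ (N + (s : ℕ)) - k| *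
                (b : ℝ) ^ n) := by
            field_simp
          _ < ((b : ℝ) ^ E)⁻¹ * 1 := mul_lt_mul_of_pos_left hk (by positivity)
          _ ≤ c' := by rw [mul_one]; exact hE
      exact lt_irrefl _ h3
    have h4 : (Set.range (fun p : Fin r × Fin K => block b (y p.1) (N + (p.2 : ℕ)) n)).ncard =
        r * K := by
      rw [← Set.image_univ, Set.ncard_image_of_injective _ hinj, Set.ncard_univ]
      simp
    rw [← h4]
    refine Set.ncard_le_ncard ?_ (words_finite b (by omega) y N n)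
    rintro _ ⟨p, rfl⟩
    exact ⟨p.1, N + p.2, by omega, rfl⟩
  refine ⟨r * ((E : ℝ) / w + N + 1), fun n => ?_⟩
  rcases le_or_gt ((N : ℝ) * w + E) n with h | h
  · set K := ⌊((n : ℝ) - E) / w - N⌋₊ with hK
    have h0 : 0 ≤ ((n : ℝ) - E) / w - N := by
      rw [sub_nonneg, le_div_iff₀ hw]; linarith
    have h1 : (K : ℝ) ≤ ((n : ℝ) - E) / w - N := Nat.floor_le h0
    have h2 : ((n : ℝ) - E) / w - N < K + 1 := Nat.lt_floor_add_one _
    have h3 := key n K (by
      push_cast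
      have : ((N : ℝ) + K) ≤ ((n : ℝ) - E) / w := by linarith
      rw [le_div_iff₀ hw] at this
      linarith)
    have h4 : ((r * K : ℕ) : ℝ) ≤ ((words b y N n).ncard : ℝ) := by exact_mod_cast h3
    push_cast at h4
    refine le_trans ?_ h4
    have h5 : (r : ℝ) * (((n : ℝ) - E) / w - N) ≤ r * (K + 1) :=
      mul_le_mul_of_nonneg_left h2.le (Nat.cast_nonneg _)
    have h6 : (r : ℝ) / w * n - r * ((E : ℝ) / w + N + 1) =
        r * (((n : ℝ) - E) / w - N) - r := by ring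
    rw [h6]
    linarith
  · have h1 : (n : ℝ) / w ≤ (E : ℝ) / w + N := by
      rw [div_add' _ _ _ hw.ne', div_le_div_iff_of_pos_right hw]
      linarith
    have h2 : (r : ℝ) * (n / w) ≤ r * ((E : ℝ) / w + N) :=
      mul_le_mul_of_nonneg_left h1 (Nat.cast_nonneg _)
    have h3 : (0 : ℝ) ≤ ((words b y N n).ncard : ℝ) := Nat.cast_nonneg _
    have h4 : (r : ℝ) / w * n - r * ((E : ℝ) / w + N + 1) =
        r * (n / w) - r * ((E : ℝ) / w + N) - r := by ring
    have h5 : (0 : ℝ) ≤ r := Nat.cast_nonneg _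
    rw [h4]
    linarith

/-- the lower limit of the joint complexity is at least `r / ω` -/
theorem liminf_le {d r : ℕ} (b : ℕ) (hb : 2 ≤ b) (x : Fin d → ℝ) (ω : ℝ) (hω : 0 < ω)
    (hx : ∀ η : ℝ, 0 < η → ∃ c : ℝ, 0 < c ∧ MeasL x (ω + η) c) (y : Fin r → ℝ)
    (hy : Inequivalent b x y) (N : ℕ) (ε : ℝ) (hε : 0 < ε) :
    ∀ᶠ n : ℕ in atTop, (r / ω - ε) * n ≤ ((words b y N n).ncard : ℝ) := by
  -- choose `η` with `r / (ω + η) ≥ r / ω - ε / 2`
  obtain ⟨η, hη, hr⟩ : ∃ η : ℝ, 0 < η ∧ (r : ℝ) / ω - ε / 2 ≤ r / (ω + η) := by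
    have hr0 : (0 : ℝ) ≤ r := Nat.cast_nonneg _
    refine ⟨ε * ω ^ 2 / (2 * (r + 1)), by positivity, ?_⟩
    have h1 : (0 : ℝ) < ω + ε * ω ^ 2 / (2 * (r + 1)) := by positivity
    have e : (r : ℝ) / ω - r / (ω + ε * ω ^ 2 / (2 * (r + 1))) =
        r * (ε * ω ^ 2 / (2 * (r + 1))) / (ω * (ω + ε * ω ^ 2 / (2 * (r + 1)))) := by
      field_simp
      ring
    have h2 : r * (ε * ω ^ 2 / (2 * (r + 1))) / (ω * (ω + ε * ω ^ 2 / (2 * (r + 1)))) ≤ ε / 2 := by
      rw [div_le_iff₀ (by positivity)]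
      have h3 : (r : ℝ) * (ε * ω ^ 2 / (2 * (r + 1))) ≤ ε * ω ^ 2 / 2 := by
        have : (r : ℝ) * (ε * ω ^ 2 / (2 * (r + 1))) = ε * ω ^ 2 / 2 * (r / (r + 1)) := by
          field_simp
        rw [this]
        refine mul_le_of_le_one_right (by positivity) ?_
        rw [div_le_one (by positivity)]
        linarith
      have h4 : ε * ω ^ 2 / 2 ≤ ε / 2 * (ω * (ω + ε * ω ^ 2 / (2 * (r + 1)))) := by
        have h5 : ω * ω ≤ ω * (ω + ε * ω ^ 2 / (2 * (r + 1))) :=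
          mul_le_mul_of_nonneg_left (le_add_of_nonneg_right (by positivity)) hω.le
        nlinarith
      linarith
    linarith
  obtain ⟨c, hc, hM⟩ := hx η hη
  obtain ⟨C, hC⟩ := count b hb x (ω + η) c (by positivity) hc hM y hy N
  filter_upwards [eventually_ge_atTop ⌈2 * |C| / ε⌉₊] with n hn
  refine le_trans ?_ (hC n)
  have h1 : 2 * |C| / ε ≤ n := (Nat.le_ceil _).trans (by exact_mod_cast hn)
  rw [div_le_iff₀ hε] at h1
  have h2 := le_abs_self C
  have h3 : ((r : ℝ) / ω - ε / 2) * n ≤ r / (ω + η) * n :=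
    mul_le_mul_of_nonneg_right hr (Nat.cast_nonneg _)
  nlinarith

end Pool.Agent.W2helper74.LC
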