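import Pool.Agent.W2helper74.LC.Unif
import Pool.Agent.Results.MP_57632f_nt.ErrorComplexityOfPi

/-!
# Joint block complexity of inequivalent numbers: the three numbers
-/

set_option autoImplicit false

namespace Pool.Agent.W2helper74.LC

open Finset Filter Pool.Agent.W472.AC

/-- `ω` is an exponent of linear independence of `1` and the `x s` -/
def Expo {d : ℕ} (x : Fin d → ℝ) (ω : ℝ) : Prop :=
  ∀ η : ℝ, 0 < η → ∃ c : ℝ, 0 < c ∧ MeasL x (ω + η) c

theorem expo_exp {d : ℕ} (κ : Fin d → ℤ) (hκ : Function.Injective κ) (h0 : ∀ j, κ j ≠ 0) :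
    Expo (fun j => Real.exp (κ j)) d := fun η hη =>
  Pool.Agent.TH768.DG.normal_exp κ hκ h0 η hη

theorem expo_of {d : ℕ} (x : Fin d → ℝ) (ω c : ℝ) (hc : 0 < c) (h : MeasL x ω c) : Expo x ω := by
  intro η hη
  refine ⟨c, hc, fun u v huv H hH hu hv => (h u v huv H hH hu hv).trans ?_⟩
  refine mul_le_mul_of_nonneg_right ?_ (abs_nonneg _)
  exact Real.rpow_le_rpow_of_exponent_le hH (by linarith)

theorem expo_pi : Expo (fun _ : Fin 1 => Real.pi) 5.05 := by
  obtain ⟨c, hc, h⟩ := Pool.Agent.Results.MP_57632f_nt.ErrorComplexityOfPi.pi_measure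
  refine expo_of _ _ (min 1 c) (by positivity) fun u v huv H hH hu hv => ?_
  have hH0 : 0 < H := by linarith
  rw [Fin.sum_univ_one]
  by_cases hv0 : v 0 = 0
  · have hu0 : u ≠ 0 := by
      rcases huv with h1 | h1
      · exact h1
      · exact absurd (funext fun s => by rw [Subsingleton.elim s 0, hv0]; rfl) h1
    have h2 : (1 : ℝ) ≤ |(u : ℝ)| := by
      have : (1 : ℤ) ≤ |u| := Int.one_le_abs hu0
      exact_mod_cast this
    rw [hv0, Int.cast_zero, zero_mul, add_zero]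
    calc min 1 c ≤ 1 * 1 := by rw [one_mul]; exact min_le_left _ _
      _ ≤ H ^ (5.05 : ℝ) * |(u : ℝ)| :=
        mul_le_mul (Real.one_le_rpow hH (by norm_num)) h2 zero_le_one (by positivity)
  · refine (min_le_right _ _).trans ?_
    have hq : 1 ≤ (v 0).natAbs := Int.natAbs_pos.2 hv0
    have hqH : (((v 0).natAbs : ℕ) : ℝ) ≤ H := by
      rw [Nat.cast_natAbs]
      push_cast
      exact hv 0
    have h3 : ∃ p : ℤ, |(((v 0).natAbs : ℕ) : ℝ) * Real.pi - p| = |(u : ℝ) + (v 0 : ℝ) * Real.pi| := by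
      rcases Int.natAbs_eq (v 0) with h4 | h4
      · refine ⟨-u, ?_⟩
        have h5 : ((v 0 : ℤ) : ℝ) = (((v 0).natAbs : ℕ) : ℝ) := by
          conv_lhs => rw [h4]
          rw [Int.cast_natCast]
        rw [h5, Int.cast_neg]
        congr 1
        ring
      · refine ⟨u, ?_⟩
        have h5 : ((v 0 : ℤ) : ℝ) = -(((v 0).natAbs : ℕ) : ℝ) := by
          conv_lhs => rw [h4]
          rw [Int.cast_neg, Int.cast_natCast]
        rw [h5, abs_sub_comm]
        congr 1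
        ring
    obtain ⟨p, hp⟩ := h3
    have h6 := h _ hq p
    rw [hp] at h6
    refine h6.trans (mul_le_mul_of_nonneg_right ?_ (abs_nonneg _))
    exact Real.rpow_le_rpow (Nat.cast_nonneg _) hqH (by norm_num)

theorem expo_sqrt2 : Expo (fun _ : Fin 1 => √2) 1 := by
  have h2 : (√2 : ℝ) ^ 2 = 2 := Real.sq_sqrt (by norm_num)
  have h20 : (0 : ℝ) ≤ √2 := Real.sqrt_nonneg 2
  refine expo_of _ _ (1 / (1 + √2)) (by positivity) fun u v huv H hH hu hv => ?_
  have hH0 : 0 < H := by linarith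
  rw [Fin.sum_univ_one, Real.rpow_one]
  have hne : u ^ 2 - 2 * (v 0) ^ 2 ≠ 0 := by
    intro h0
    have h1 : (u : ℝ) ^ 2 = 2 * (v 0 : ℝ) ^ 2 := by
      have : u ^ 2 = 2 * (v 0) ^ 2 := by omega
      exact_mod_cast this
    by_cases hv0 : v 0 = 0
    · rw [hv0] at h1
      have hu0 : u = 0 := by
        have : (u : ℝ) ^ 2 = 0 := by rw [h1]; simp
        have h3 := pow_eq_zero_iff (two_ne_zero) |>.1 this
        exact_mod_cast h3
      rcases huv with h3 | h3
      · exact h3 hu0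
      · exact h3 (funext fun s => by rw [Subsingleton.elim s 0, hv0]; rfl)
    · have hv0R : (v 0 : ℝ) ≠ 0 := by exact_mod_cast hv0
      have h3 : (|(u : ℝ)| / |(v 0 : ℝ)|) ^ 2 = 2 := by
        rw [div_pow, sq_abs, sq_abs, h1]
        field_simp
      have h4 : √2 = |(u : ℝ)| / |(v 0 : ℝ)| := by
        rw [← h3]
        exact Real.sqrt_sq (by positivity)
      have h5 := irrational_sqrt_two
      rw [h4] at h5
      apply h5
      exact ⟨|(u : ℚ)| / |(v 0 : ℚ)|, by push_cast; rfl⟩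
  have h3 : (1 : ℝ) ≤ |(u : ℝ) ^ 2 - 2 * (v 0 : ℝ) ^ 2| := by
    have : (1 : ℤ) ≤ |u ^ 2 - 2 * (v 0) ^ 2| := Int.one_le_abs hne
    exact_mod_cast this
  have h4 : (u : ℝ) ^ 2 - 2 * (v 0 : ℝ) ^ 2 = (u + (v 0 : ℝ) * √2) * (u - (v 0 : ℝ) * √2) := by
    linear_combination (v 0 : ℝ) ^ 2 * h2
  rw [h4, abs_mul] at h3
  have h5 : |(u : ℝ) - (v 0 : ℝ) * √2| ≤ (1 + √2) * H := by
    refine (abs_sub _ _).trans ?_
    rw [abs_mul, abs_of_nonneg h20]
    have := mul_le_mul_of_nonneg_right (hv 0) h20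
    linarith
  rw [div_le_iff₀ (by positivity)]
  calc (1 : ℝ) ≤ |(u : ℝ) + (v 0 : ℝ) * √2| * |(u : ℝ) - (v 0 : ℝ) * √2| := h3
    _ ≤ |(u : ℝ) + (v 0 : ℝ) * √2| * ((1 + √2) * H) :=
      mul_le_mul_of_nonneg_left h5 (abs_nonneg _)
    _ = _ := by ring

/-- The conclusions of the theorem, for numbers in the rational span of `1` and the `x s`. -/
def Conclusion {d : ℕ} (b : ℕ) (x : Fin d → ℝ) (ω : ℝ) : Prop :=
  (∀ (r : ℕ) (y : Fin r → ℝ), Inequivalent b x y → ∀ (N : ℕ) (ε : ℝ), 0 < ε →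
    ∀ᶠ n : ℕ in atTop, (r / ω - ε) * n ≤ ((words b y N n).ncard : ℝ)) ∧
  (∀ (L : (n : ℕ) → Set (Fin n → ℤ)) (C : ℝ),
    (∃ᶠ n : ℕ in atTop, (L n).Finite ∧ ((L n).ncard : ℝ) ≤ C * n) →
    ∀ (r : ℕ) (y : Fin r → ℝ), Inequivalent b x y →
      (∀ i, ∃ N : ℕ, ∀ t ≥ N, ∀ n, block b (y i) t n ∈ L n) → (r : ℝ) ≤ C * ω) ∧
  (∀ η : ℝ, 0 < η → ∃ C : ℝ, ∀ (r : ℕ) (u : Fin r → ℤ) (v : Fin r → Fin d → ℤ) (H : ℝ), 1 ≤ H →
    (∀ i s, |(v i s : ℝ)| ≤ H) → PowFree b v → ∀ n : ℕ,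
      r * (n / (ω + η) - Real.logb b H - C) ≤ ((words b (comb x u v) 0 n).ncard : ℝ))

theorem conclusion {d : ℕ} (b : ℕ) (hb : 2 ≤ b) (x : Fin d → ℝ) (ω : ℝ) (hω : 0 < ω)
    (hx : Expo x ω) : Conclusion b x ω := by
  refine ⟨fun r y hy N ε hε => liminf_le b hb x ω hω hx y hy N ε hε, ?_, ?_⟩
  · intro L C hL r y hy hyL
    choose N hN using hyL
    set M := ∑ i, N i with hM
    by_contra hlt
    push Not at hlt
    set ε : ℝ := ((r : ℝ) / ω - C) / 2 with hε
    have hε0 : 0 < ε := by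
      have : C < (r : ℝ) / ω := by rwa [lt_div_iff₀ hω]
      rw [hε]
      linarith
    have h1 := liminf_le b hb x ω hω hx y hy M ε hε0
    obtain ⟨n, ⟨hfin, hcard⟩, h2, hn⟩ := (hL.and_eventually (h1.and (eventually_gt_atTop 0))).exists
    have h3 : (words b y M n).ncard ≤ (L n).ncard := by
      refine Set.ncard_le_ncard ?_ hfin
      rintro w ⟨i, t, ht, rfl⟩
      refine hN i t (le_trans ?_ ht) n
      exact Finset.single_le_sum (f := N) (fun _ _ => Nat.zero_le _) (mem_univ i)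
    have h4 : ((words b y M n).ncard : ℝ) ≤ C * n := (by exact_mod_cast h3 : _ ≤ _).trans hcard
    have h5 : ((r : ℝ) / ω - ε) * n ≤ C * n := h2.trans h4
    have hnR : (0 : ℝ) < n := by exact_mod_cast hn
    have h6 := le_of_mul_le_mul_right h5 hnR
    rw [hε] at h6 hε0
    linarith
  · intro η hη
    obtain ⟨c, hc, hM⟩ := hx η hη
    exact count_unif b hb x (ω + η) c (by positivity) hc hM

/-- the multiples `z, 2 z, …, M z` -/
theorem multiples (b : ℕ) (hb : 2 ≤ b) (z : ℝ) (hz : Irrational z) (ω : ℝ) (hω : 0 < ω)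
    (hx : Expo (fun _ : Fin 1 => z) ω) (M N : ℕ) (ε : ℝ) (hε : 0 < ε) :
    ∀ᶠ n : ℕ in atTop, (((M - M / b : ℕ) : ℝ) / ω - ε) * n ≤
      ((words b (fun a : Fin M => ((a : ℕ) + 1 : ℝ) * z) N n).ncard : ℝ) := by
  classical
  set A : Finset ℕ := (Finset.range M).filter fun a => ¬ b ∣ a + 1 with hA
  have hcard : A.card = M - M / b := by
    have h1 := Finset.card_filter_add_card_filter_not (s := Finset.range M) (fun a => b ∣ a + 1)
    have h2 : ((Finset.range M).filter fun a => b ∣ a + 1).card = M / b := by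
      rw [← Nat.card_multiples M b]
    rw [Finset.card_range, h2] at h1
    rw [hA]
    omega
  set f : Fin (M - M / b) → ℕ := fun i => A.orderEmbOfFin hcard i with hf
  have hfA : ∀ i, f i ∈ A := fun i => A.orderEmbOfFin_mem hcard i
  have hfinj : Function.Injective f := (A.orderEmbOfFin hcard).injective
  have hy : Inequivalent b (fun _ : Fin 1 => z) (fun i => ((f i : ℕ) + 1 : ℝ) * z) := by
    refine ⟨fun i => ⟨0, fun _ => (f i : ℚ) + 1, by simp⟩, fun i => ?_, fun i j hij t => ?_⟩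
    · have : ((f i : ℕ) + 1 : ℝ) * z = ((f i + 1 : ℕ) : ℝ) * z := by push_cast; ring
      show Irrational (((f i : ℕ) + 1 : ℝ) * z)
      rw [this]
      exact hz.natCast_mul (by omega)
    · have e : ((f i : ℕ) + 1 : ℝ) * z - (b : ℝ) ^ t * (((f j : ℕ) + 1 : ℝ) * z) =
          (((f i + 1 : ℤ) - b ^ t * (f j + 1) : ℤ) : ℝ) * z := by push_cast; ring
      show Irrational (((f i : ℕ) + 1 : ℝ) * z - (b : ℝ) ^ t * (((f j : ℕ) + 1 : ℝ) * z))
      rw [e]
      refine hz.intCast_mul ?_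
      intro h0
      have h1 : f i + 1 = b ^ t * (f j + 1) := by
        have : ((f i + 1 : ℕ) : ℤ) = ((b ^ t * (f j + 1) : ℕ) : ℤ) := by push_cast; linarith
        exact_mod_cast this
      rcases Nat.eq_zero_or_pos t with ht | ht
      · subst ht
        rw [pow_zero, one_mul] at h1
        exact hij (hfinj (by omega))
      · have h2 := (Finset.mem_filter.1 (hfA i)).2
        apply h2
        rw [h1]
        exact Dvd.dvd.mul_right (dvd_pow_self b (by omega)) _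
  filter_upwards [liminf_le b hb _ ω hω hx _ hy N ε hε] with n hn
  refine hn.trans ?_
  have h3 : (words b (fun i => ((f i : ℕ) + 1 : ℝ) * z) N n).ncard ≤
      (words b (fun a : Fin M => ((a : ℕ) + 1 : ℝ) * z) N n).ncard := by
    refine Set.ncard_le_ncard ?_ (words_finite b (by omega) _ N n)
    rintro w ⟨i, t, ht, rfl⟩
    have h4 : f i < M := Finset.mem_range.1 (Finset.mem_filter.1 (hfA i)).1
    exact ⟨⟨f i, h4⟩, t, ht, rfl⟩
  exact_mod_cast h3

end Pool.Agent.W2helper74.LC
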