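import Pool.Agent.TH768.DG.Exp
import Pool.Agent.H326R2.Pi.Top

/-!
# Joint block complexity of inequivalent numbers
-/

set_option autoImplicit false

namespace Pool.Agent.W2helper74.LC

open Finset Filter Pool.Agent.W472.AC

/-- the `i`-th digit of `x` after the point in base `b` -/
noncomputable def digit (b : ℕ) (x : ℝ) (i : ℕ) : ℤ := ⌊x * (b : ℝ) ^ i⌋ % (b : ℤ)

/-- the word formed by the digits of `x` at the places `t + 1, …, t + n` -/
noncomputable def block (b : ℕ) (x : ℝ) (t n : ℕ) : Fin n → ℤ := fun j => digit b x (t + 1 + j)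

/-- the words of length `n` which occur after place `N` in the expansion of one of the `y i` -/
def words {r : ℕ} (b : ℕ) (y : Fin r → ℝ) (N n : ℕ) : Set (Fin n → ℤ) :=
  {w | ∃ i t, N ≤ t ∧ block b (y i) t n = w}

lemma floor_step (b : ℕ) (hb : 1 ≤ b) (z : ℝ) : ⌊z * b⌋ = b * ⌊z⌋ + ⌊z * b⌋ % (b : ℤ) := by
  have hbR : (0 : ℝ) < b := by exact_mod_cast hb
  have hbZ : (0 : ℤ) < b := by exact_mod_cast hb
  have h1 : ⌊z * b⌋ / (b : ℤ) = ⌊z⌋ := by
    apply Int.le_antisymm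
    · rw [Int.le_floor]
      have h2 : ⌊z * b⌋ / (b : ℤ) * b ≤ ⌊z * b⌋ := Int.ediv_mul_le _ hbZ.ne'
      have h3 : ((⌊z * b⌋ / (b : ℤ) * b : ℤ) : ℝ) ≤ z * b :=
        (Int.cast_le.2 h2).trans (Int.floor_le _)
      push_cast at h3
      exact le_of_mul_le_mul_right h3 hbR
    · rw [Int.le_ediv_iff_mul_le hbZ, Int.le_floor]
      push_cast
      exact mul_le_mul_of_nonneg_right (Int.floor_le z) hbR.le
  have h4 := Int.mul_ediv_add_emod ⌊z * b⌋ (b : ℤ)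
  rw [h1] at h4
  exact h4.symm

lemma val_eq (b : ℕ) (hb : 1 ≤ b) (x y : ℝ) (t s n : ℕ)
    (h : ∀ j < n, digit b x (t + 1 + j) = digit b y (s + 1 + j)) :
    ⌊x * (b : ℝ) ^ (t + n)⌋ - b ^ n * ⌊x * (b : ℝ) ^ t⌋ =
      ⌊y * (b : ℝ) ^ (s + n)⌋ - b ^ n * ⌊y * (b : ℝ) ^ s⌋ := by
  induction n with
  | zero => simp
  | succ n ih =>
    have ih' := ih fun j hj => h j (by omega)
    have h1 := h n (by omega)
    unfold digit at h1
    have e1 : x * (b : ℝ) ^ (t + (n + 1)) = x * (b : ℝ) ^ (t + n) * b := by ring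
    have e2 : y * (b : ℝ) ^ (s + (n + 1)) = y * (b : ℝ) ^ (s + n) * b := by ring
    rw [show t + 1 + n = t + (n + 1) by ring, show s + 1 + n = s + (n + 1) by ring, e1, e2] at h1
    rw [e1, e2, floor_step b hb, floor_step b hb (y * (b : ℝ) ^ (s + n)), h1]
    linear_combination (b : ℤ) * ih'

lemma close (b : ℕ) (hb : 1 ≤ b) (x y : ℝ) (t s n : ℕ) (h : block b x t n = block b y s n) :
    ∃ k : ℤ, |x * (b : ℝ) ^ t - y * (b : ℝ) ^ s - k| * (b : ℝ) ^ n < 1 := by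
  have hv := val_eq b hb x y t s n fun j hj => congrFun h ⟨j, hj⟩
  refine ⟨⌊x * (b : ℝ) ^ t⌋ - ⌊y * (b : ℝ) ^ s⌋, ?_⟩
  have hbn : (0 : ℝ) < (b : ℝ) ^ n := by
    have : (0 : ℝ) < b := by exact_mod_cast hb
    positivity
  have hv' : ((⌊x * (b : ℝ) ^ (t + n)⌋ - b ^ n * ⌊x * (b : ℝ) ^ t⌋ : ℤ) : ℝ) =
      ((⌊y * (b : ℝ) ^ (s + n)⌋ - b ^ n * ⌊y * (b : ℝ) ^ s⌋ : ℤ) : ℝ) := by rw [hv]
  push_cast at hv'
  have e : (x * (b : ℝ) ^ t - y * (b : ℝ) ^ s - ((⌊x * (b : ℝ) ^ t⌋ - ⌊y * (b : ℝ) ^ s⌋ : ℤ) : ℝ)) *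
      (b : ℝ) ^ n = Int.fract (x * (b : ℝ) ^ (t + n)) - Int.fract (y * (b : ℝ) ^ (s + n)) := by
    have f1 : Int.fract (x * (b : ℝ) ^ (t + n)) =
        x * (b : ℝ) ^ t * (b : ℝ) ^ n - ⌊x * (b : ℝ) ^ (t + n)⌋ := by
      rw [Int.fract, pow_add, mul_assoc]
    have f2 : Int.fract (y * (b : ℝ) ^ (s + n)) =
        y * (b : ℝ) ^ s * (b : ℝ) ^ n - ⌊y * (b : ℝ) ^ (s + n)⌋ := by
      rw [Int.fract, pow_add, mul_assoc]
    rw [f1, f2]
    push_cast
    linear_combination hv'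
  have e2 : |x * (b : ℝ) ^ t - y * (b : ℝ) ^ s -
      ((⌊x * (b : ℝ) ^ t⌋ - ⌊y * (b : ℝ) ^ s⌋ : ℤ) : ℝ)| * (b : ℝ) ^ n =
      |Int.fract (x * (b : ℝ) ^ (t + n)) - Int.fract (y * (b : ℝ) ^ (s + n))| := by
    rw [← e, abs_mul, abs_of_pos hbn]
  rw [e2, abs_lt]
  have h1 := Int.fract_nonneg (x * (b : ℝ) ^ (t + n))
  have h2 := Int.fract_lt_one (x * (b : ℝ) ^ (t + n))
  have h3 := Int.fract_nonneg (y * (b : ℝ) ^ (s + n))
  have h4 := Int.fract_lt_one (y * (b : ℝ) ^ (s + n))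
  constructor <;> linarith

/-- a measure which does not involve the constant coefficient -/
theorem sep {d : ℕ} (x : Fin d → ℝ) (w c : ℝ) (hw : 0 ≤ w) (hc : 0 < c) (hx : MeasL x w c) :
    ∃ c' : ℝ, 0 < c' ∧ ∀ (u : ℤ) (v : Fin d → ℤ), v ≠ 0 → ∀ H : ℝ, 1 ≤ H →
      (∀ s, |(v s : ℝ)| ≤ H) → c' ≤ H ^ w * |u + ∑ s, (v s : ℝ) * x s| := by
  set S : ℝ := 1 + ∑ s, |x s| with hS
  have hS0 : 0 ≤ ∑ s, |x s| := Finset.sum_nonneg fun s _ => abs_nonneg _
  have hS1 : 1 ≤ S := by linarith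
  refine ⟨min 1 (c / S ^ w), by positivity, fun u v hv H hH hvH => ?_⟩
  have hH0 : 0 < H := by linarith
  rcases le_or_gt 1 |(u : ℝ) + ∑ s, (v s : ℝ) * x s| with h | h
  · calc min 1 (c / S ^ w) ≤ 1 * 1 := by rw [one_mul]; exact min_le_left _ _
      _ ≤ H ^ w * |u + ∑ s, (v s : ℝ) * x s| :=
        mul_le_mul (Real.one_le_rpow hH hw) h zero_le_one (by positivity)
  · have h1 : |∑ s, (v s : ℝ) * x s| ≤ H * ∑ s, |x s| := by
      refine (Finset.abs_sum_le_sum_abs _ _).trans ?_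
      rw [Finset.mul_sum]
      refine Finset.sum_le_sum fun s _ => ?_
      rw [abs_mul]
      exact mul_le_mul_of_nonneg_right (hvH s) (abs_nonneg _)
    have h2 : |(u : ℝ)| ≤ H * S := by
      have h3 : |(u : ℝ)| ≤ |(u : ℝ) + ∑ s, (v s : ℝ) * x s| + |∑ s, (v s : ℝ) * x s| := by
        have := abs_sub (u + ∑ s, (v s : ℝ) * x s) (∑ s, (v s : ℝ) * x s)
        rwa [add_sub_cancel_right] at this
      rw [hS, mul_add, mul_one]
      linarith
    have h4 := hx u v (Or.inr hv) (H * S) (one_le_mul_of_one_le_of_one_le hH hS1) h2 (fun s =>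
      (hvH s).trans (le_mul_of_one_le_right hH0.le hS1))
    rw [Real.mul_rpow hH0.le (by linarith)] at h4
    refine (min_le_right _ _).trans ?_
    rw [div_le_iff₀ (by positivity)]
    linarith

/-- the numbers `y i` are in the rational span of `1` and the `x s`; none of them is rational; and
no `y i` differs from `b^t * y j` (`j ≠ i`, `t ≥ 0`) by a rational number -/
def Inequivalent {d r : ℕ} (b : ℕ) (x : Fin d → ℝ) (y : Fin r → ℝ) : Prop :=
  (∀ i, ∃ (q : ℚ) (v : Fin d → ℚ), y i = q + ∑ s, (v s : ℝ) * x s) ∧ (∀ i, Irrational (y i)) ∧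
    ∀ i j, i ≠ j → ∀ t : ℕ, Irrational (y i - (b : ℝ) ^ t * y j)

/-- common denominators -/
theorem common {ι : Type*} [Fintype ι] (q : ι → ℚ) :
    ∃ Q : ℕ, 1 ≤ Q ∧ ∀ i, ∃ z : ℤ, (Q : ℝ) * (q i : ℝ) = z := by
  classical
  refine ⟨∏ i, (q i).den, Finset.prod_pos fun i _ => (q i).den_pos, fun i => ?_⟩
  obtain ⟨k, hk⟩ : (q i).den ∣ ∏ i, (q i).den := Finset.dvd_prod_of_mem _ (mem_univ i)
  refine ⟨k * (q i).num, ?_⟩
  rw [hk]
  have h := Rat.mul_den_eq_num (q i)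
  have h' : ((q i : ℚ) : ℝ) * (q i).den = (q i).num := by exact_mod_cast h
  push_cast
  linear_combination (k : ℝ) * h'

/-- Different positions in the `y i` are separated modulo one. -/
theorem separated {d r : ℕ} (b : ℕ) (hb : 2 ≤ b) (x : Fin d → ℝ) (w c : ℝ) (hw : 0 ≤ w)
    (hc : 0 < c) (hx : MeasL x w c) (y : Fin r → ℝ) (hy : Inequivalent b x y) :
    ∃ c' : ℝ, 0 < c' ∧ ∀ (i j : Fin r) (t s T : ℕ), t ≤ T → s ≤ T → (i, t) ≠ (j, s) → ∀ k : ℤ,
      c' ≤ ((b : ℝ) ^ T) ^ w * |y i * (b : ℝ) ^ t - y j * (b : ℝ) ^ s - k| := by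
  classical
  obtain ⟨c₁, hc₁, hsep⟩ := sep x w c hw hc hx
  obtain ⟨hspan, hirr, hne⟩ := hy
  choose q v hqv using hspan
  obtain ⟨Q, hQ, hQi⟩ := common (fun p : Fin r × Option (Fin d) => Option.elim p.2 (q p.1) (v p.1))
  have hQ0 : ∀ i, ∃ z : ℤ, (Q : ℝ) * (q i : ℝ) = z := fun i => hQi (i, none)
  have hQ1 : ∀ i s, ∃ z : ℤ, (Q : ℝ) * (v i s : ℝ) = z := fun i s => hQi (i, some s)
  choose U hU using hQ0
  choose V hV using hQ1
  have hQR : (1 : ℝ) ≤ Q := by exact_mod_cast hQ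
  have hQy : ∀ i, (Q : ℝ) * y i = U i + ∑ s, (V i s : ℝ) * x s := by
    intro i
    rw [hqv, mul_add, hU, Finset.mul_sum]
    congr 1
    refine Finset.sum_congr rfl fun s _ => ?_
    rw [← hV]
    ring
  set B : ℝ := 1 + ∑ i, ∑ s, |(V i s : ℝ)| with hB
  have hBs : ∀ i s, |(V i s : ℝ)| ≤ B := by
    intro i s
    have h1 : |(V i s : ℝ)| ≤ ∑ s, |(V i s : ℝ)| :=
      Finset.single_le_sum (f := fun s => |(V i s : ℝ)|) (fun _ _ => abs_nonneg _) (mem_univ s)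
    have h2 : ∑ s, |(V i s : ℝ)| ≤ ∑ i, ∑ s, |(V i s : ℝ)| :=
      Finset.single_le_sum (f := fun i => ∑ s, |(V i s : ℝ)|)
        (fun _ _ => Finset.sum_nonneg fun _ _ => abs_nonneg _) (mem_univ i)
    linarith
  have hB1 : 1 ≤ B := by
    have : 0 ≤ ∑ i, ∑ s, |(V i s : ℝ)| :=
      Finset.sum_nonneg fun _ _ => Finset.sum_nonneg fun _ _ => abs_nonneg _
    linarith
  have hb1 : (1 : ℝ) ≤ b := by exact_mod_cast (by omega : 1 ≤ b)
  have hbR : (0 : ℝ) < b := by linarith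
  -- irrationality of the differences
  have hirr2 : ∀ (i j : Fin r) (t s : ℕ), (i, t) ≠ (j, s) →
      Irrational (y i * (b : ℝ) ^ t - y j * (b : ℝ) ^ s) := by
    have key : ∀ (i j : Fin r) (t s : ℕ), t ≤ s → (i, t) ≠ (j, s) →
        Irrational (y i * (b : ℝ) ^ t - y j * (b : ℝ) ^ s) := by
      intro i j t s hts hne'
      obtain ⟨e, rfl⟩ := Nat.exists_eq_add_of_le hts
      have e1 : y i * (b : ℝ) ^ t - y j * (b : ℝ) ^ (t + e) =
          ((b ^ t : ℕ) : ℝ) * (y i - (b : ℝ) ^ e * y j) := by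
        push_cast; ring
      rw [e1]
      refine Irrational.natCast_mul ?_ (by positivity)
      by_cases hij : i = j
      · subst hij
        have he : e ≠ 0 := by
          rintro rfl
          exact hne' rfl
        have e2 : y i - (b : ℝ) ^ e * y i = ((1 - b ^ e : ℤ) : ℝ) * y i := by
          push_cast; ring
        rw [e2]
        refine Irrational.intCast_mul (hirr i) ?_
        have h3 : 1 < (b : ℤ) ^ e := one_lt_pow₀ (by exact_mod_cast hb) he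
        omega
      · exact hne i j hij e
    intro i j t s hne'
    rcases le_total t s with h | h
    · exact key i j t s h hne'
    · have h1 := (key j i s t h (fun h2 => hne' h2.symm)).neg
      rwa [neg_sub] at h1
  refine ⟨c₁ / ((2 * B) ^ w * Q), by positivity, fun i j t s T ht hs hne' k => ?_⟩
  have hT : (1 : ℝ) ≤ (b : ℝ) ^ T := one_le_pow₀ hb1
  have hbt : (b : ℝ) ^ t ≤ (b : ℝ) ^ T := pow_le_pow_right₀ hb1 ht
  have hbs : (b : ℝ) ^ s ≤ (b : ℝ) ^ T := pow_le_pow_right₀ hb1 hs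
  have hform : (Q : ℝ) * (y i * (b : ℝ) ^ t - y j * (b : ℝ) ^ s - k) =
      ((b ^ t * U i - b ^ s * U j - Q * k : ℤ) : ℝ) +
        ∑ m, ((b ^ t * V i m - b ^ s * V j m : ℤ) : ℝ) * x m := by
    have e1 : ∑ m, ((b ^ t * V i m - b ^ s * V j m : ℤ) : ℝ) * x m =
        (b : ℝ) ^ t * ∑ m, (V i m : ℝ) * x m - (b : ℝ) ^ s * ∑ m, (V j m : ℝ) * x m := by
      rw [Finset.mul_sum, Finset.mul_sum, ← Finset.sum_sub_distrib]
      refine Finset.sum_congr rfl fun m _ => ?_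
      push_cast; ring
    rw [e1]
    push_cast
    linear_combination (b : ℝ) ^ t * hQy i - (b : ℝ) ^ s * hQy j
  have hv0 : (fun m => (b ^ t * V i m - b ^ s * V j m : ℤ)) ≠ 0 := by
    intro h0
    have h1 : ∑ m, ((b ^ t * V i m - b ^ s * V j m : ℤ) : ℝ) * x m = 0 :=
      Finset.sum_eq_zero fun m _ => by
        have : (b ^ t * V i m - b ^ s * V j m : ℤ) = 0 := congrFun h0 m
        rw [this]; simp
    rw [h1, add_zero] at hform
    have h2 := (((hirr2 i j t s hne').sub_intCast k).natCast_mul (by omega : Q ≠ 0))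
    rw [hform] at h2
    exact (h2.ne_int _) rfl
  have h5 := hsep (b ^ t * U i - b ^ s * U j - Q * k)
    (fun m => (b ^ t * V i m - b ^ s * V j m : ℤ)) hv0 (2 * B * (b : ℝ) ^ T)
    (by nlinarith) (fun m => by
      push_cast
      refine (abs_sub _ _).trans ?_
      rw [abs_mul, abs_mul, abs_of_pos (by positivity : (0 : ℝ) < (b : ℝ) ^ t),
        abs_of_pos (by positivity : (0 : ℝ) < (b : ℝ) ^ s)]
      have h6 := mul_le_mul hbt (hBs i m) (abs_nonneg _) (by positivity)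
      have h7 := mul_le_mul hbs (hBs j m) (abs_nonneg _) (by positivity)
      linarith)
  rw [← hform, abs_mul, abs_of_pos (by linarith : (0 : ℝ) < Q),
    Real.mul_rpow (by positivity) (by positivity)] at h5
  rw [div_le_iff₀ (by positivity)]
  linarith

end Pool.Agent.W2helper74.LC
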