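import Pool.Agent.W2helper74.LC.Count

/-!
# Joint block complexity of inequivalent numbers: uniform version
-/

set_option autoImplicit false

namespace Pool.Agent.W2helper74.LC

open Finset Filter Pool.Agent.W472.AC

/-- the numbers `u i + ∑ s, v i s * x s` -/
noncomputable def comb {d r : ℕ} (x : Fin d → ℝ) (u : Fin r → ℤ) (v : Fin r → Fin d → ℤ) :
    Fin r → ℝ := fun i => u i + ∑ s, (v i s : ℝ) * x s

/-- the nonzero integer vectors `v i` are not obtained from each other by multiplication by a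
power of `b` -/
def PowFree {d r : ℕ} (b : ℕ) (v : Fin r → Fin d → ℤ) : Prop :=
  (∀ i, v i ≠ 0) ∧ ∀ i j, i ≠ j → ∀ t : ℕ, v i ≠ (b : ℤ) ^ t • v j

theorem separated_unif {d : ℕ} (b : ℕ) (hb : 2 ≤ b) (x : Fin d → ℝ) (w c : ℝ) (hw : 0 ≤ w)
    (hc : 0 < c) (hx : MeasL x w c) :
    ∃ c' : ℝ, 0 < c' ∧ ∀ (r : ℕ) (u : Fin r → ℤ) (v : Fin r → Fin d → ℤ) (H : ℝ), 1 ≤ H →
      (∀ i s, |(v i s : ℝ)| ≤ H) → PowFree b v →
      ∀ (i j : Fin r) (t s T : ℕ), t ≤ T → s ≤ T → (i, t) ≠ (j, s) → ∀ k : ℤ,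
      c' ≤ (H * (b : ℝ) ^ T) ^ w *
        |comb x u v i * (b : ℝ) ^ t - comb x u v j * (b : ℝ) ^ s - k| := by
  classical
  obtain ⟨c₁, hc₁, hsep⟩ := sep x w c hw hc hx
  have hb1 : (1 : ℝ) ≤ b := by exact_mod_cast (by omega : 1 ≤ b)
  have hbR : (0 : ℝ) < b := by linarith
  refine ⟨c₁ / 2 ^ w, by positivity, fun r u v H hH hvH hpf i j t s T ht hs hne k => ?_⟩
  have hH0 : 0 < H := by linarith
  have hT : (1 : ℝ) ≤ (b : ℝ) ^ T := one_le_pow₀ hb1
  have hbt : (b : ℝ) ^ t ≤ (b : ℝ) ^ T := pow_le_pow_right₀ hb1 ht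
  have hbs : (b : ℝ) ^ s ≤ (b : ℝ) ^ T := pow_le_pow_right₀ hb1 hs
  have hform : comb x u v i * (b : ℝ) ^ t - comb x u v j * (b : ℝ) ^ s - k =
      ((b ^ t * u i - b ^ s * u j - k : ℤ) : ℝ) +
        ∑ m, ((b ^ t * v i m - b ^ s * v j m : ℤ) : ℝ) * x m := by
    have e1 : ∑ m, ((b ^ t * v i m - b ^ s * v j m : ℤ) : ℝ) * x m =
        (b : ℝ) ^ t * ∑ m, (v i m : ℝ) * x m - (b : ℝ) ^ s * ∑ m, (v j m : ℝ) * x m := by
      rw [Finset.mul_sum, Finset.mul_sum, ← Finset.sum_sub_distrib]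
      refine Finset.sum_congr rfl fun m _ => ?_
      push_cast; ring
    rw [e1]
    unfold comb
    push_cast
    ring
  have hbZ : (b : ℤ) ≠ 0 := by omega
  have hv0 : (fun m => (b ^ t * v i m - b ^ s * v j m : ℤ)) ≠ 0 := by
    intro h0
    have h1 : ∀ m, (b : ℤ) ^ t * v i m = b ^ s * v j m := fun m => by
      have := congrFun h0 m
      simp only [Pi.zero_apply] at this
      omega
    have key : ∀ (i j : Fin r) (t e : ℕ), (i, t) ≠ (j, t + e) →
        (∀ m, (b : ℤ) ^ t * v i m = b ^ (t + e) * v j m) → False := by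
      intro i j t e hne' h
      have h2 : ∀ m, v i m = (b : ℤ) ^ e * v j m := by
        intro m
        have h3 := h m
        rw [pow_add, mul_assoc] at h3
        exact mul_left_cancel₀ (pow_ne_zero t hbZ) h3
      by_cases hij : i = j
      · subst hij
        have he : e ≠ 0 := by
          rintro rfl
          exact hne' rfl
        apply hpf.1 i
        funext m
        have h4 := h2 m
        have h5 : 1 < (b : ℤ) ^ e := one_lt_pow₀ (by exact_mod_cast hb) he
        have h6 : ((b : ℤ) ^ e - 1) * v i m = 0 := by linear_combination -h4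
        rcases mul_eq_zero.1 h6 with h7 | h7
        · omega
        · exact h7
      · exact hpf.2 i j hij e (funext fun m => by rw [h2 m]; rfl)
    rcases le_total t s with h | h
    · obtain ⟨e, rfl⟩ := Nat.exists_eq_add_of_le h
      exact key i j t e hne h1
    · obtain ⟨e, rfl⟩ := Nat.exists_eq_add_of_le h
      exact key j i s e (fun h2 => hne h2.symm) (fun m => (h1 m).symm)
  have h5 := hsep (b ^ t * u i - b ^ s * u j - k)
    (fun m => (b ^ t * v i m - b ^ s * v j m : ℤ)) hv0 (2 * (H * (b : ℝ) ^ T))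
    (by nlinarith) (fun m => by
      push_cast
      refine (abs_sub _ _).trans ?_
      rw [abs_mul, abs_mul, abs_of_pos (by positivity : (0 : ℝ) < (b : ℝ) ^ t),
        abs_of_pos (by positivity : (0 : ℝ) < (b : ℝ) ^ s)]
      have h6 := mul_le_mul hbt (hvH i m) (abs_nonneg _) (by positivity)
      have h7 := mul_le_mul hbs (hvH j m) (abs_nonneg _) (by positivity)
      linarith)
  rw [← hform, Real.mul_rpow (by norm_num) (by positivity)] at h5
  rw [div_le_iff₀ (by positivity)]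
  linarith

/-- The uniform inequality: the constant `C` depends only on `b`, `x` and `w`. -/
theorem count_unif {d : ℕ} (b : ℕ) (hb : 2 ≤ b) (x : Fin d → ℝ) (w c : ℝ) (hw : 0 < w)
    (hc : 0 < c) (hx : MeasL x w c) :
    ∃ C : ℝ, ∀ (r : ℕ) (u : Fin r → ℤ) (v : Fin r → Fin d → ℤ) (H : ℝ), 1 ≤ H →
      (∀ i s, |(v i s : ℝ)| ≤ H) → PowFree b v → ∀ n : ℕ,
        r * (n / w - Real.logb b H - C) ≤ ((words b (comb x u v) 0 n).ncard : ℝ) := by
  classical
  obtain ⟨c', hc', hsep⟩ := separated_unif b hb x w c hw.le hc hx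
  have hbR : (1 : ℝ) < b := by exact_mod_cast (by omega : 1 < b)
  have hb0 : (0 : ℝ) < b := by linarith
  obtain ⟨E, hE⟩ : ∃ E : ℕ, ((b : ℝ) ^ E)⁻¹ ≤ c' := by
    obtain ⟨E, hE⟩ := pow_unbounded_of_one_lt (1 / c') hbR
    refine ⟨E, ?_⟩
    rw [inv_le_comm₀ (by positivity) hc', ← one_div]
    exact hE.le
  refine ⟨(E : ℝ) / w + 1, fun r u v H hH hvH hpf n => ?_⟩
  have hH0 : 0 < H := by linarith
  have hl0 : 0 ≤ Real.logb b H := Real.logb_nonneg hbR hH
  have key : ∀ K : ℕ, ((K : ℝ) + Real.logb b H) * w + E ≤ n →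
      r * K ≤ (words b (comb x u v) 0 n).ncard := by
    intro K hK
    have hinj : Function.Injective
        (fun p : Fin r × Fin K => block b (comb x u v p.1) (p.2 : ℕ) n) := by
      rintro ⟨i, t⟩ ⟨j, s⟩ h
      by_contra hne
      obtain ⟨k, hk⟩ := close b (by omega) (comb x u v i) (comb x u v j) t s n h
      have h1 := hsep r u v H hH hvH hpf i j t s K (by omega) (by omega) (fun h2 => hne (by
        rw [Prod.mk.injEq] at h2
        rw [Prod.mk.injEq]
        exact ⟨h2.1, Fin.ext (by omega)⟩)) k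
      have h2 : (H * (b : ℝ) ^ K) ^ w ≤ (b : ℝ) ^ n / (b : ℝ) ^ E := by
        have e1 : H * (b : ℝ) ^ K = (b : ℝ) ^ ((K : ℝ) + Real.logb b H) := by
          rw [Real.rpow_add hb0, Real.rpow_logb hb0 hbR.ne' hH0, Real.rpow_natCast, mul_comm]
        rw [e1, ← Real.rpow_mul hb0.le, le_div_iff₀ (by positivity),
          ← Real.rpow_natCast (b : ℝ) E, ← Real.rpow_add hb0, ← Real.rpow_natCast (b : ℝ) n]
        exact Real.rpow_le_rpow_of_exponent_le hbR.le hK
      have h3 : c' < c' := by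
        calc c' ≤ (H * (b : ℝ) ^ K) ^ w *
              |comb x u v i * (b : ℝ) ^ (t : ℕ) - comb x u v j * (b : ℝ) ^ (s : ℕ) - k| := h1
          _ ≤ (b : ℝ) ^ n / (b : ℝ) ^ E *
              |comb x u v i * (b : ℝ) ^ (t : ℕ) - comb x u v j * (b : ℝ) ^ (s : ℕ) - k| :=
            mul_le_mul_of_nonneg_right h2 (abs_nonneg _)
          _ = ((b : ℝ) ^ E)⁻¹ *
              (|comb x u v i * (b : ℝ) ^ (t : ℕ) - comb x u v j * (b : ℝ) ^ (s : ℕ) - k| *
                (b : ℝ) ^ n) := by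
            field_simp
          _ < ((b : ℝ) ^ E)⁻¹ * 1 := mul_lt_mul_of_pos_left hk (by positivity)
          _ ≤ c' := by rw [mul_one]; exact hE
      exact lt_irrefl _ h3
    have h4 : (Set.range (fun p : Fin r × Fin K =>
        block b (comb x u v p.1) (p.2 : ℕ) n)).ncard = r * K := by
      rw [← Set.image_univ, Set.ncard_image_of_injective _ hinj, Set.ncard_univ]
      simp
    rw [← h4]
    refine Set.ncard_le_ncard ?_ (words_finite b (by omega) _ 0 n)
    rintro _ ⟨p, rfl⟩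
    exact ⟨p.1, p.2, by omega, rfl⟩
  have hr0 : (0 : ℝ) ≤ r := Nat.cast_nonneg _
  rcases le_or_gt 0 (((n : ℝ) - E) / w - Real.logb b H) with h0 | h0
  · set K := ⌊((n : ℝ) - E) / w - Real.logb b H⌋₊ with hK
    have h1 : (K : ℝ) ≤ ((n : ℝ) - E) / w - Real.logb b H := Nat.floor_le h0
    have h2 : ((n : ℝ) - E) / w - Real.logb b H < K + 1 := Nat.lt_floor_add_one _
    have h3 := key K (by
      have : ((K : ℝ) + Real.logb b H) ≤ ((n : ℝ) - E) / w := by linarith
      rw [le_div_iff₀ hw] at this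
      linarith)
    have h4 : ((r * K : ℕ) : ℝ) ≤ ((words b (comb x u v) 0 n).ncard : ℝ) := by exact_mod_cast h3
    push_cast at h4
    refine le_trans ?_ h4
    refine mul_le_mul_of_nonneg_left ?_ hr0
    have h6 : (n : ℝ) / w - Real.logb b H - ((E : ℝ) / w + 1) =
        (((n : ℝ) - E) / w - Real.logb b H) - 1 := by ring
    rw [h6]
    linarith
  · have h3 : (0 : ℝ) ≤ ((words b (comb x u v) 0 n).ncard : ℝ) := Nat.cast_nonneg _
    refine le_trans ?_ h3
    refine mul_nonpos_of_nonneg_of_nonpos hr0 ?_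
    have h6 : (n : ℝ) / w - Real.logb b H - ((E : ℝ) / w + 1) =
        (((n : ℝ) - E) / w - Real.logb b H) - 1 := by ring
    rw [h6]
    linarith

end Pool.Agent.W2helper74.LC
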